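import Pool.Agent.J4H1.LL.Stm
import Pool.Agent.J4H8.JP.Abs2

/-!
# Project LL, piece (ABL): small orders of derivation
-/

set_option autoImplicit false

namespace Pool.Agent.J4H74.LL

open Complex Filter Topology Metric MeasureTheory
open Pool.Agent.J4H8.JP Pool.Agent.J4H1.LL

/-- stage 1 for small `n` -/
theorem st1 {δ l : ℝ} {n : ℕ} (hn1 : 1 ≤ n) (hl : 0 < l) (hn : (n : ℝ) ≤ δ * l) (hδ : δ ≤ 1 / 2)
    {f : ℂ → ℂ} (hf : Differentiable ℂ f)
    (A1 : ∀ w : ℂ, ‖w‖ ≤ 8 → ‖f w‖ ≤ Real.exp (l * (max |w.re| (1 / 2) + δ))) :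
    ∀ v : ℂ, ‖v‖ ≤ 7 →
      ‖iteratedDeriv n f v‖ ≤ l ^ n * Real.exp (l * (max |v.re| (1 / 2) + 2 * δ)) := by
  intro v hv
  have hn0 : (0 : ℝ) < n := by exact_mod_cast hn1
  obtain ⟨a, ha⟩ : ∃ a : ℝ, a = n / l := ⟨_, rfl⟩
  have ha0 : 0 < a := by rw [ha]; positivity
  have haδ : a ≤ δ := by rw [ha, div_le_iff₀ hl]; exact hn
  have hM : ∀ w ∈ sphere v a, ‖f w‖ ≤ Real.exp (l * (max |v.re| (1 / 2) + 2 * δ)) := by
    intro w hw
    rw [mem_sphere, dist_eq_norm] at hw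
    have h1 : ‖w‖ ≤ 8 := by
      calc ‖w‖ = ‖v + (w - v)‖ := by congr 1; ring
        _ ≤ ‖v‖ + ‖w - v‖ := norm_add_le _ _
        _ ≤ 8 := by linarith
    refine (A1 w h1).trans ?_
    apply Real.exp_le_exp.2
    apply mul_le_mul_of_nonneg_left _ hl.le
    have h2 : |w.re| ≤ |v.re| + a := by
      have h3 : |w.re - v.re| ≤ a := by
        rw [← sub_re, ← hw]
        exact abs_re_le_norm _
      calc |w.re| = |v.re + (w.re - v.re)| := by congr 1; ring
        _ ≤ |v.re| + |w.re - v.re| := abs_add_le _ _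
        _ ≤ _ := by linarith
    have h4 : max |w.re| (1 / 2) ≤ max |v.re| (1 / 2) + a := by
      apply max_le
      · have := le_max_left |v.re| (1 / 2)
        linarith
      · have := le_max_right |v.re| (1 / 2)
        linarith
    linarith
  have h1 := Complex.norm_iteratedDeriv_le_of_forall_mem_sphere_norm_le n ha0 hf.diffContOnCl hM
  refine h1.trans ?_
  have h2 : (n.factorial : ℝ) / a ^ n ≤ l ^ n := by
    have h3 : (n.factorial : ℝ) ≤ (n : ℝ) ^ n := by exact_mod_cast Nat.factorial_le_pow n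
    rw [div_le_iff₀ (by positivity), ha, div_pow, mul_div_assoc', mul_div_cancel_left₀]
    · exact h3
    · positivity
  calc (n.factorial : ℝ) * Real.exp (l * (max |v.re| (1 / 2) + 2 * δ)) / a ^ n =
        (n.factorial : ℝ) / a ^ n * Real.exp (l * (max |v.re| (1 / 2) + 2 * δ)) := by ring
    _ ≤ l ^ n * Real.exp (l * (max |v.re| (1 / 2) + 2 * δ)) := by gcongr

/-- stage 2 for small `n` -/
theorem st2 {δ l : ℝ} {n : ℕ} (hn1 : 1 ≤ n) (hl : 0 < l) (hn : (n : ℝ) ≤ δ * l) (hδ : 0 < δ)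
    (hδa : δ ≤ 1 / 64) (hl3 : 8 ≤ Real.exp (δ * l)) (hl4 : 4 * (1 / 8) * l < Real.exp (δ * l))
    {f : ℂ → ℂ} (hf : Differentiable ℂ f)
    (A1 : ∀ w : ℂ, ‖w‖ ≤ 8 → ‖f w‖ ≤ Real.exp (l * (max |w.re| (1 / 2) + δ)))
    (A3 : ∀ w : ℂ, ‖w‖ ≤ 8 → 1 / 2 + δ ≤ w.re → Real.exp (l * (w.re - δ)) ≤ ‖f w‖) :
    ∃ u : ℝ, 0 ≤ u ∧ u ≤ 1 / 4 ∧
      l ^ n * Real.exp (l * ((2 - u) - 2 * δ)) ≤ ‖iteratedDeriv n f (2 - (u : ℂ))‖ := by
  by_contra hcon
  push Not at hcon
  obtain ⟨m, rfl⟩ : ∃ m, n = m + 1 := ⟨n - 1, by omega⟩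
  obtain ⟨a, ha⟩ : ∃ a : ℝ, a = 1 / 8 := ⟨_, rfl⟩
  have ha0 : 0 < a := by rw [ha]; norm_num
  have h2a : 2 * a = 1 / 4 := by rw [ha]; norm_num
  rw [← h2a] at hcon
  have hT := taylor_seg hf 2 1 (2 * a) m
  -- the Taylor part
  have hsum := taylor_part_le hf (x0 := 2 - ((2 * a : ℝ) : ℂ) * 1) (h := ((2 * a : ℝ) : ℂ) * 1) (r := a)
    (M := Real.exp (l * (2 - a + δ))) ha0 (by
      rw [mul_one, norm_real, Real.norm_of_nonneg (by linarith)]; linarith) (by
      intro w hw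
      rw [mem_sphere, dist_eq_norm] at hw
      have h0 : ‖(2 : ℂ) - ((2 * a : ℝ) : ℂ) * 1‖ ≤ 2 := by
        rw [mul_one]
        have : (2 : ℂ) - ((2 * a : ℝ) : ℂ) = ((2 - 2 * a : ℝ) : ℂ) := by push_cast; ring
        rw [this, norm_real, Real.norm_of_nonneg (by linarith)]
        linarith
      have h1 : ‖w‖ ≤ 8 := by
        calc ‖w‖ = ‖((2 : ℂ) - ((2 * a : ℝ) : ℂ) * 1) + (w - ((2 : ℂ) - ((2 * a : ℝ) : ℂ) * 1))‖ := by
              congr 1; ring
          _ ≤ ‖(2 : ℂ) - ((2 * a : ℝ) : ℂ) * 1‖ + ‖w - ((2 : ℂ) - ((2 * a : ℝ) : ℂ) * 1)‖ := norm_add_le _ _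
          _ ≤ 8 := by rw [hw]; linarith
      refine (A1 w h1).trans ?_
      apply Real.exp_le_exp.2
      apply mul_le_mul_of_nonneg_left _ hl.le
      have h3 : |w.re - (2 - 2 * a)| ≤ a := by
        have h4 := abs_re_le_norm (w - ((2 : ℂ) - ((2 * a : ℝ) : ℂ) * 1))
        rw [hw] at h4
        simpa using h4
      rw [abs_le] at h3
      have h5 : max |w.re| (1 / 2) ≤ 2 - a := by
        apply max_le
        · rw [abs_le]; constructor <;> linarith
        · linarith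
      linarith) m
  set T : ℂ := ∑ k ∈ Finset.range (m + 1), (((2 * a : ℝ) : ℂ) * 1) ^ k / (k.factorial : ℂ) *
    iteratedDeriv k f (2 - ((2 * a : ℝ) : ℂ) * 1) with hTdef
  have hTb : ‖T‖ ≤ 1 / 2 * Real.exp (l * (2 - δ)) := by
    refine hsum.trans ?_
    have e1 : ‖((2 * a : ℝ) : ℂ) * 1‖ = 2 * a := by
      rw [mul_one, norm_real, Real.norm_of_nonneg (by linarith)]
    rw [e1]
    have e2 : 2 * a / a = 2 := by field_simp
    have e3 : a / (2 * a - a) = 1 := by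
      rw [div_eq_one_iff_eq (by linarith)]; ring
    rw [e2, e3, mul_one]
    have h2 : (2 : ℝ) ^ (m + 1) ≤ Real.exp (δ * l) := by
      have h3 : (2 : ℝ) ≤ Real.exp 1 := by
        have := Real.exp_one_gt_d9
        linarith
      calc (2 : ℝ) ^ (m + 1) ≤ Real.exp 1 ^ (m + 1) := by gcongr
        _ = Real.exp ((m + 1 : ℕ) * 1) := by rw [← Real.exp_nat_mul]
        _ ≤ Real.exp (δ * l) := by
            apply Real.exp_le_exp.2
            linarith
    calc Real.exp (l * (2 - a + δ)) * 2 ^ (m + 1) ≤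
          Real.exp (l * (2 - a + δ)) * Real.exp (δ * l) := by gcongr
      _ = Real.exp (l * (2 - a + δ) + δ * l) := by rw [Real.exp_add]
      _ ≤ Real.exp (l * (2 - δ) + -(δ * l)) := by
          apply Real.exp_le_exp.2
          nlinarith
      _ = Real.exp (l * (2 - δ)) * (Real.exp (δ * l))⁻¹ := by
          rw [Real.exp_add, Real.exp_neg]
      _ ≤ Real.exp (l * (2 - δ)) * (8 : ℝ)⁻¹ := by gcongr
      _ ≤ 1 / 2 * Real.exp (l * (2 - δ)) := by
          have := Real.exp_pos (l * (2 - δ))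
          linarith
  -- the integral
  have hI : ‖∫ u in (0 : ℝ)..(2 * a), (u : ℂ) ^ m * iteratedDeriv (m + 1) f (2 - u * 1)‖ ≤
      (l * m.factorial * Real.exp (l * (2 - 2 * δ))) * |2 * a - 0| := by
    apply intervalIntegral.norm_integral_le_of_norm_le_const
    intro u hu
    rw [Set.uIoc_of_le (by linarith)] at hu
    have h1 := hcon u hu.1.le hu.2
    rw [norm_mul, norm_pow, norm_real, Real.norm_of_nonneg hu.1.le, mul_one]
    have h2 := pow_mul_exp_neg_le_factorial m (x := l * u) (by have := hu.1; positivity)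
    have h0 : 0 < u := hu.1
    calc u ^ m * ‖iteratedDeriv (m + 1) f (2 - u)‖ ≤
          u ^ m * (l ^ (m + 1) * Real.exp (l * (2 - u - 2 * δ))) := by gcongr
      _ = l * ((l * u) ^ m * Real.exp (-(l * u))) * Real.exp (l * (2 - 2 * δ)) := by
          have e : Real.exp (l * (2 - u - 2 * δ)) = Real.exp (-(l * u)) * Real.exp (l * (2 - 2 * δ)) := by
            rw [← Real.exp_add]; congr 1; ring
          rw [e, mul_pow]; ring
      _ ≤ l * m.factorial * Real.exp (l * (2 - 2 * δ)) := by gcongr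
  rw [sub_zero, abs_of_pos (by linarith : (0 : ℝ) < 2 * a)] at hI
  have hf2 := A3 2 (by norm_num) (by simp; linarith)
  have hn2 : ‖f 2‖ ≤ ‖T‖ + 1 / m.factorial *
      ‖∫ u in (0 : ℝ)..(2 * a), (u : ℂ) ^ m * iteratedDeriv (m + 1) f (2 - u * 1)‖ := by
    rw [hT]
    refine (norm_add_le _ _).trans ?_
    rw [norm_mul, norm_div, Complex.norm_natCast, one_pow, norm_one]
  have hm0 : (0 : ℝ) < m.factorial := by positivity
  have h3 : 1 / (m.factorial : ℝ) *
      ‖∫ u in (0 : ℝ)..(2 * a), (u : ℂ) ^ m * iteratedDeriv (m + 1) f (2 - u * 1)‖ ≤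
      2 * a * l * Real.exp (l * (2 - 2 * δ)) := by
    calc _ ≤ 1 / (m.factorial : ℝ) * ((l * m.factorial * Real.exp (l * (2 - 2 * δ))) * (2 * a)) := by
          gcongr
      _ = _ := by field_simp
  have h4 : 2 * a * l * Real.exp (l * (2 - 2 * δ)) < 1 / 2 * Real.exp (l * (2 - δ)) := by
    have e : Real.exp (l * (2 - δ)) = Real.exp (δ * l) * Real.exp (l * (2 - 2 * δ)) := by
      rw [← Real.exp_add]; congr 1; ring
    rw [e]
    rw [← ha] at hl4
    have := mul_lt_mul_of_pos_right hl4 (Real.exp_pos (l * (2 - 2 * δ)))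
    linarith
  have h5 : ((2 : ℂ)).re = 2 := rfl
  rw [h5] at hf2
  linarith

theorem t_ABL : S_absL := by
  intro ε hε
  obtain ⟨ε0, hε00, hε01, hε0ε⟩ : ∃ ε0 : ℝ, 0 < ε0 ∧ ε0 ≤ 1 / 100 ∧ 6 * ε0 ≤ ε / 4 :=
    ⟨min (ε / 24) (1 / 100), by positivity, min_le_right _ _, by
      have := min_le_left (ε / 24) (1 / 100)
      linarith⟩
  set q : ℝ := ε / 4 * ε0 / 4 with hq
  have hq0 : 0 < q := by positivity
  obtain ⟨δ, hδ, d1, d2, d3, d4⟩ : ∃ δ : ℝ, 0 < δ ∧ δ ≤ ε / 8 ∧ δ ≤ 1 / 64 ∧ δ ≤ 1 / (2 * ε0) ∧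
      δ ≤ 1 / (2 * ε0) * q ^ (6 / ε0) :=
    ⟨min (min (ε / 8) (1 / 64)) (min (1 / (2 * ε0)) (1 / (2 * ε0) * q ^ (6 / ε0))), by positivity,
      (min_le_left _ _).trans (min_le_left _ _), (min_le_left _ _).trans (min_le_right _ _),
      (min_le_right _ _).trans (min_le_left _ _), (min_le_right _ _).trans (min_le_right _ _)⟩
  have d3' : 2 * δ * ε0 ≤ 1 := by
    rw [le_div_iff₀ (by positivity)] at d3; linarith
  have d4' : (2 * δ * ε0) ^ (ε0 / 6) ≤ q := by
    have h1 : 2 * δ * ε0 ≤ q ^ (6 / ε0) := by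
      rw [one_div, inv_mul_eq_div, le_div_iff₀ (by positivity)] at d4
      linarith
    calc (2 * δ * ε0) ^ (ε0 / 6) ≤ (q ^ (6 / ε0)) ^ (ε0 / 6) :=
          Real.rpow_le_rpow (by positivity) h1 (by positivity)
      _ = q := by
          rw [← Real.rpow_mul hq0.le]
          have : 6 / ε0 * (ε0 / 6) = 1 := by field_simp
          rw [this, Real.rpow_one]
  refine ⟨δ, max (1 / (1 / 8)) (42 / δ ^ 2), hδ, ?_⟩
  intro l hl n hn1 hn f hf A1 A3 A4
  obtain ⟨g1, g2, g3, g4⟩ := growth_bounds (a := 1 / 8) (by norm_num) (by norm_num) hδ hl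
  have hl0 : 0 < l := by linarith
  have s1 := st1 hn1 hl0 hn (by linarith) hf A1
  obtain ⟨u0, hu0, hu1, s2⟩ := st2 hn1 hl0 hn hδ d2 g3 g4 hf A1 A3
  set c : ℝ := 2 - u0 with hc
  have hc1 : 1 ≤ c := by linarith
  have hc2 : c ≤ 2 := by linarith
  have hcC : (2 : ℂ) - (u0 : ℂ) = (c : ℂ) := by rw [hc]; push_cast; ring
  rw [hcC] at s2
  have hG : Differentiable ℂ (iteratedDeriv n f) := by
    have h1 : ContDiff ℂ ⊤ f := hf.contDiff
    exact h1.differentiable_iteratedDeriv n (by exact_mod_cast WithTop.coe_lt_top _)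
  set h : ℂ → ℂ := fun u => iteratedDeriv n f (c + u) * exp (-(l * u)) with hh
  have hh0 : h 0 = iteratedDeriv n f c := by rw [hh]; simp
  have hhd : Differentiable ℂ h := by
    rw [hh]
    apply Differentiable.mul
    · exact hG.comp (by fun_prop)
    · fun_prop
  have hreu : ∀ u : ℂ, ‖u‖ < c → 0 < c + u.re := by
    intro u hu
    have := (abs_le.1 (abs_re_le_norm u)).1
    linarith
  have hnormv : ∀ u : ℂ, ‖u‖ < c → ‖(c : ℂ) + u‖ ≤ 4 := by
    intro u hu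
    calc ‖(c : ℂ) + u‖ ≤ ‖(c : ℂ)‖ + ‖u‖ := norm_add_le _ _
      _ ≤ 4 := by
          rw [norm_real, Real.norm_of_nonneg (by linarith)]
          linarith
  have hne : ∀ u : ℂ, ‖u‖ < c → h u ≠ 0 := by
    intro u hu
    apply mul_ne_zero _ (exp_ne_zero _)
    apply A4
    · linarith [hnormv u hu]
    · simpa using hreu u hu
  have hbd : ∀ u : ℂ, ‖u‖ < c → ‖h u‖ ≤
      l ^ n * Real.exp (l * (max (c + u.re) (1 / 2) + 2 * δ) - l * u.re) := by
    intro u hu
    have h1 := s1 (c + u) (by linarith [hnormv u hu])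
    have h2 : ((c : ℂ) + u).re = c + u.re := by simp
    rw [h2, abs_of_pos (hreu u hu)] at h1
    rw [hh]
    simp only [norm_mul, Complex.norm_exp]
    have h3 : (-((l : ℂ) * u)).re = -(l * u.re) := by simp
    rw [h3]
    calc ‖iteratedDeriv n f (c + u)‖ * Real.exp (-(l * u.re)) ≤
          (l ^ n * Real.exp (l * (max (c + u.re) (1 / 2) + 2 * δ))) * Real.exp (-(l * u.re)) := by
          gcongr
      _ = _ := by rw [mul_assoc, ← Real.exp_add]; rfl
  have hb : ∀ u : ℂ, ‖u‖ < c → ‖h u‖ ≤ ‖h 0‖ * Real.exp l := by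
    intro u hu
    refine (hbd u hu).trans ?_
    rw [hh0]
    calc l ^ n * Real.exp (l * (max (c + u.re) (1 / 2) + 2 * δ) - l * u.re) ≤
          l ^ n * Real.exp (l * (c - 2 * δ) + l) := by
          gcongr
          have h1 : max (c + u.re) (1 / 2) + 2 * δ - u.re ≤ (c - 2 * δ) + 1 := by
            have h2 := hreu u hu
            rcases max_cases (c + u.re) (1 / 2) with h3 | h3
            · rw [h3.1]; linarith
            · rw [h3.1]; linarith
          nlinarith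
      _ = (l ^ n * Real.exp (l * (c - 2 * δ))) * Real.exp l := by rw [mul_assoc, ← Real.exp_add]
      _ ≤ _ := by gcongr
  have hb' : ∀ u : ℂ, ‖u‖ < 1 / 4 → ‖h u‖ ≤ ‖h 0‖ * Real.exp (4 * δ * l) := by
    intro u hu
    refine (hbd u (by linarith)).trans ?_
    rw [hh0]
    calc l ^ n * Real.exp (l * (max (c + u.re) (1 / 2) + 2 * δ) - l * u.re) =
          l ^ n * Real.exp (l * (c - 2 * δ) + 4 * δ * l) := by
          have h2 := (abs_le.1 (abs_re_le_norm u)).1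
          rw [max_eq_left (by linarith)]
          congr 2
          ring
      _ = (l ^ n * Real.exp (l * (c - 2 * δ))) * Real.exp (4 * δ * l) := by
          rw [Real.exp_add, ← mul_assoc]
      _ ≤ _ := by gcongr
  obtain ⟨ψ, -, hψ, hψs⟩ := log_small hc1 hc2 hl0 hδ hε00 hε01 d3' hhd hne hb hb'
  refine ⟨6 * ε0, by positivity, by linarith, ?_⟩
  obtain ⟨z, hz⟩ : ∃ z : ℂ, z = ((6 * ε0 - c : ℝ) : ℂ) := ⟨_, rfl⟩
  have hzn : ‖z‖ = c - 6 * ε0 := by
    rw [hz, norm_real, Real.norm_eq_abs, abs_of_nonpos (by linarith)]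
    ring
  have hψz : ‖ψ z‖ ≤ ε / 4 * l := by
    refine (hψs z (by rw [hzn]; linarith)).trans ?_
    calc 4 * l / ε0 * (2 * δ * ε0) ^ (ε0 / 6) ≤ 4 * l / ε0 * q := by gcongr
      _ = ε / 4 * l := by rw [hq]; field_simp
  have hzlt : ‖z‖ < c := by rw [hzn]; linarith
  have h1 := hψ z hzlt
  have h2 : iteratedDeriv n f ((6 * ε0 : ℝ) : ℂ) = h 0 * exp (ψ z) * exp (l * z) := by
    rw [← h1, hh]
    simp only
    rw [mul_assoc, ← exp_add, hz]
    have e1 : (c : ℂ) + ((6 * ε0 - c : ℝ) : ℂ) = ((6 * ε0 : ℝ) : ℂ) := by push_cast; ring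
    rw [e1]
    simp
  rw [h2, norm_mul, norm_mul, Complex.norm_exp, Complex.norm_exp, hh0]
  have h3 : ((l : ℂ) * z).re = l * (6 * ε0 - c) := by
    rw [hz, ← ofReal_mul, ofReal_re]
  have h4 : (ψ z).re ≤ ε / 4 * l := (re_le_norm _).trans hψz
  have h5 := s1 (c : ℂ) (by
    rw [norm_real, Real.norm_of_nonneg (by linarith)]
    linarith)
  rw [ofReal_re, abs_of_pos (by linarith), max_eq_left (by linarith)] at h5
  rw [h3]
  calc ‖iteratedDeriv n f c‖ * Real.exp (ψ z).re * Real.exp (l * (6 * ε0 - c))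
      ≤ (l ^ n * Real.exp (l * (c + 2 * δ))) * Real.exp (ε / 4 * l) *
        Real.exp (l * (6 * ε0 - c)) := by gcongr
    _ = l ^ n * Real.exp (l * (c + 2 * δ) + ε / 4 * l + l * (6 * ε0 - c)) := by
        rw [Real.exp_add, Real.exp_add]
        ring
    _ ≤ l ^ n * Real.exp (ε * l) := by
        gcongr
        nlinarith

end Pool.Agent.J4H74.LL
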